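import Pool.Agent.P8H74.WP.New
import Pool.Agent.P8H96.WP.Cr1
import Pool.Agent.P8H83.WP.Div

/-!
# Nonperiodic points modulo primes: for EVERY rational map and EVERY first point, almost every second point

Let `K` be a number field, `φ = f / g` any rational map of degree `d ≥ 2` of the projective line over `K`, and
`γ 0, ..., γ (r - 1)` any finite number of points of the projective line over `K`, not all equal to `∞`, such that none of them is
periodic modulo at least ONE prime of good reduction (for `r = 1` this is true for every nonperiodic point, by Benedetto,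
Ghioca, Hutz, Kurlberg, Scanlon and Tucker). Then for almost all algebraic integers `δ` of `K` the points
`γ 0, ..., γ (r - 1), δ` have a positive answer in Q2 (and Q1): there is a set of primes of positive lower density modulo which
none of them is periodic. Almost all: for every `ε > 0` the other `δ` are in a proportion `ε` of the residue classes modulo
some ideal `I ≠ 0`. (So they have density zero in all boxes, and the closure of their set in the profinite completion has
measure zero.)

With `r = 1`: for every rational map, every nonperiodic `γ₁` and almost all `γ₂` both questions have a positive answer. The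
result can be applied again, to `γ, δ` in place of `γ`.

Proof. By `RationalMaps` the set `S` of the `γ` has positive lower density, so the sum of the `1 / N v`, `v ∈ S`, diverges and
the product of the `1 - 1 / N v` over a finite subset `F` is `≤ ε`. If `δ ≡ γ i` modulo some `v ∈ F`, then `v` is in the set `S` of
`γ, δ`, and by `RationalMaps` this set has positive lower density. By the Chinese remainder theorem the other `δ` are in the
proportion `∏ v ∈ F, (1 - 1 / N v)` of the residue classes modulo the product of the `v ∈ F`.

The packages: `Pool.Agent.P8H53.WP` (helper53), `Pool.Agent.P8H83.WP` (helper83), `Pool.Agent.P8H96.WP` (helper96).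
-/

set_option autoImplicit false

open NumberField IsDedekindDomain Polynomial Filter

namespace Pool.Agent.Results.MP_63749c_nt.AlmostEveryPoint

section

variable {K : Type} [Field K] [NumberField K]

/-- The value of the homogenization of degree `d` of the polynomial `f` at the vector `(x, y)`: the sum of the
`f_i x ^ i y ^ (d - i)`. -/
noncomputable def hom (d : ℕ) (f : K[X]) (x : K × K) : K :=
  ∑ i ∈ Finset.range (d + 1), f.coeff i * (x.1 ^ i * x.2 ^ (d - i))

/-- The rational map `f / g` of degree `d` of the projective line, in homogeneous coordinates. -/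
noncomputable def rmap (d : ℕ) (f g : K[X]) (x : K × K) : K × K := (hom d f x, hom d g x)

/-- The rational map `f / g` of degree `d` has good reduction at the prime `v`: for some `c ≠ 0` the polynomials `c f`, `c g`
have `v`-integral coefficients and their resultant (for the degrees `d`, `d`) is a unit at `v`. -/
def Good (v : HeightOneSpectrum (𝓞 K)) (d : ℕ) (f g : K[X]) : Prop :=
  ∃ c : K, c ≠ 0 ∧ (∀ i, v.valuation K ((C c * f).coeff i) ≤ 1) ∧ (∀ i, v.valuation K ((C c * g).coeff i) ≤ 1) ∧
    v.valuation K (resultant (C c * f) (C c * g) d d) = 1

/-- The points `x` and `y` of the projective line, given by nonzero vectors, have the same reduction modulo `v`: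
`|x.1 y.2 - x.2 y.1| < max (|x.1|, |x.2|) max (|y.1|, |y.2|)` for the absolute value of `v`. -/
def SameReduction (v : HeightOneSpectrum (𝓞 K)) (x y : K × K) : Prop :=
  v.valuation K (x.1 * y.2 - x.2 * y.1) <
    max (v.valuation K x.1) (v.valuation K x.2) * max (v.valuation K y.1) (v.valuation K y.2)

/-- The point `γ` of the projective line is periodic modulo `v` for the map `f / g` of degree `d`. -/
def PeriodicMod (v : HeightOneSpectrum (𝓞 K)) (d : ℕ) (f g : K[X]) (γ : K × K) : Prop :=
  ∃ m : ℕ, 0 < m ∧ SameReduction v ((rmap d f g)^[m] γ) γ

/-- The set `S` of the primes `v` of good reduction such that none of the points `γ i` is periodic modulo `v`. -/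
def S {r : ℕ} (d : ℕ) (f g : K[X]) (γ : Fin r → K × K) : Set (HeightOneSpectrum (𝓞 K)) :=
  {v | Good v d f g ∧ ∀ i, ¬ PeriodicMod v d f g (γ i)}

/-- Positive lower density: the number of the elements of `T` of norm at most `X` is at least `c π(X)`, `c > 0`, for all large
`X`. -/
def PositiveDensity (T : Set (HeightOneSpectrum (𝓞 K))) : Prop :=
  ∃ c : ℝ, 0 < c ∧ ∀ᶠ X : ℕ in atTop, c * (Nat.primeCounting X : ℝ) ≤
    Nat.card {v : HeightOneSpectrum (𝓞 K) // v ∈ T ∧ Ideal.absNorm v.asIdeal ≤ X}

end

/-- **Every rational map, every first points, almost every further point.** Let `K` be a number field and `φ = f / g` a rational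
map of degree `d ≥ 2` over `K` (`deg f ≤ d`, `deg g ≤ d`, the resultant of degrees `d`, `d` is not zero), and let `γ i` be finitely
many points of the projective line over `K`, not all equal to `∞ = (1 : 0)`, with `S` not empty. For every `ε > 0` there is an
ideal `I ≠ 0` such that the algebraic integers `δ` for which the set of the `v ∈ S` such that `δ` is not periodic modulo `v` does not
have positive lower density are in at most `ε N I` of the `N I` residue classes modulo `I`. -/
theorem result (K : Type) [Field K] [NumberField K] (d : ℕ) (hd : 2 ≤ d) (f g : K[X]) (hf : f.natDegree ≤ d)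
    (hg : g.natDegree ≤ d) (_hres : resultant f g d d ≠ 0) (r : ℕ) (γ : Fin r → K × K) (hγ : ∀ i, γ i ≠ 0)
    (hinf : ∃ i, (γ i).2 ≠ 0) (hS : (S d f g γ).Nonempty) (ε : ℝ) (hε : 0 < ε) :
    ∃ I : Ideal (𝓞 K), I ≠ ⊥ ∧
      ((Ideal.Quotient.mk I ''
        {δ : 𝓞 K | ¬ PositiveDensity {v | v ∈ S d f g γ ∧ ¬ PeriodicMod v d f g ((δ : K), 1)}}).ncard : ℝ) ≤
          ε * (Nat.card (𝓞 K ⧸ I) : ℝ) := by
  obtain ⟨i₀, hi₀⟩ := hinf
  exact Pool.Agent.P8H74.WP.almost_new Pool.Agent.P8H83.WP.div Pool.Agent.P8H96.WP.One.cr1 (by omega) f g hf hg γ hγ i₀
    hi₀ hS ε hε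

end Pool.Agent.Results.MP_63749c_nt.AlmostEveryPoint
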