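import Pool.Agent.P8H74.WP.Fin

/-!
# Nonperiodic points modulo primes: one prime decides

Let `K` be a number field, `f ∈ K[x]` a polynomial of degree `d ≥ 2`, regarded as a map of the projective line, and
`γ 0, ..., γ (r - 1) ∈ K` any finite number of points (`r = 2` in Q1 and Q2). Let `S` be the set of the primes `v` of `K` of good
reduction such that none of the `γ i` is periodic modulo `v`.

1. If `S` contains ONE prime, it has positive lower density. So Q1 and Q2 are equivalent for each datum, and a positive
   answer is decided by one prime.
2. For every `f` and `r` almost all tuples `γ` of algebraic integers have a positive answer: for every `ε > 0` the others lie in a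
   proportion `ε` of the residue classes of tuples modulo some nonzero ideal `I`. (So they have density zero in all boxes, and
   the closure of their set in the profinite completion has measure zero.)
3. The set of the `(f, γ)` with a positive answer is open: if `v ∈ S` then the answer is positive for all `g` of the same
   degree and all `δ` with `g ≡ f`, `δ ≡ γ` modulo `v`.

Proof. (1) Let `v ∈ S`, `n = N v` and let `L` be the splitting field of all `f^n(x) - γ i`. A Frobenius automorphism `Φ` at a
prime over `v` fixes no root `β`: otherwise the `N v + 1` elements `β, f(β), ..., f^n(β) = γ i` would be in the residue field of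
`v` modulo this prime, two of them would be congruent and `γ i` would be periodic modulo `v`. By Chebotarev's theorem `Φ` is a
Frobenius automorphism for a positive proportion of the primes `w`. If `γ i` is periodic modulo `w` then it has the form
`f^n(x)` modulo `w` with `x` in the residue field of `w`; so some root `β` is congruent to `x` modulo a prime over `w`, `Φ β` is
congruent to `β`, and `Φ β = β` for all but finitely many `w`. (2) If `N v ≡ 1 mod d` then `f` misses at least `N v / (2 d)`
residue classes modulo `v`; if all `γ i` are in such classes for one `v` then (1) applies; now the Chinese remainder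
theorem.

The packages: `Pool.Agent.P8H53.WP` (helper53), `Pool.Agent.P8H78.WP` (helper78), `Pool.Agent.P8H96.WP` (helper96).
-/

set_option autoImplicit false

open NumberField IsDedekindDomain Polynomial Filter

namespace Pool.Agent.Results.MP_63749c_nt.OnePrimeDecides

section

variable {K : Type} [Field K] [NumberField K]

/-- The polynomial `f` has good reduction at the prime `v`: its coefficients are `v`-integral and the leading coefficient is
a unit at `v`. -/
def Good (v : HeightOneSpectrum (𝓞 K)) (f : K[X]) : Prop :=
  (∀ i, v.valuation K (f.coeff i) ≤ 1) ∧ v.valuation K f.leadingCoeff = 1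

/-- The point `γ` is periodic modulo `v` for the polynomial map `f`, which has good reduction at `v`: `γ` is not `v`-integral
(then its reduction is the fixed point `∞`) or `f^m(γ) ≡ γ` modulo `v` for some `m ≥ 1`. -/
def PeriodicMod (v : HeightOneSpectrum (𝓞 K)) (f : K[X]) (γ : K) : Prop :=
  1 < v.valuation K γ ∨ ∃ m : ℕ, 0 < m ∧ v.valuation K ((fun x => f.eval x)^[m] γ - γ) < 1

/-- The set `S` of the primes `v` of good reduction such that none of the points `γ i` is periodic modulo `v`. -/
def S {r : ℕ} (f : K[X]) (γ : Fin r → K) : Set (HeightOneSpectrum (𝓞 K)) :=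
  {v | Good v f ∧ ∀ i, ¬ PeriodicMod v f (γ i)}

/-- Positive lower density: the number of the elements of `T` of norm at most `X` is at least `c π(X)`, `c > 0`, for all large
`X`. -/
def PositiveDensity (T : Set (HeightOneSpectrum (𝓞 K))) : Prop :=
  ∃ c : ℝ, 0 < c ∧ ∀ᶠ X : ℕ in atTop, c * (Nat.primeCounting X : ℝ) ≤
    Nat.card {v : HeightOneSpectrum (𝓞 K) // v ∈ T ∧ Ideal.absNorm v.asIdeal ≤ X}

end

/-- **One prime decides.** Let `K` be a number field and `f ∈ K[x]` of degree at least two.
(1) For all `γ 0, ..., γ (r - 1) ∈ K`: `S` is not empty iff `S` is infinite iff `S` has positive lower density.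
(2) For every `r` and `ε > 0` there is an ideal `I ≠ 0` such that the tuples `γ` of algebraic integers for which `S` does not have
positive lower density are in at most `ε (N I) ^ r` of the `(N I) ^ r` residue classes modulo `I`.
(3) If `v ∈ S` and `g`, `δ` are congruent to `f`, `γ` modulo `v`, `deg g = deg f`, then the set `S` of `g`, `δ` has positive lower
density. -/
theorem result (K : Type) [Field K] [NumberField K] (f : K[X]) (hf : 2 ≤ f.natDegree) (r : ℕ) :
    (∀ γ : Fin r → K, List.TFAE [(S f γ).Nonempty, (S f γ).Infinite, PositiveDensity (S f γ)]) ∧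
    (∀ ε : ℝ, 0 < ε → ∃ I : Ideal (𝓞 K), I ≠ ⊥ ∧
      (((fun γ : Fin r → 𝓞 K => fun i => Ideal.Quotient.mk I (γ i)) ''
        {γ | ¬ PositiveDensity (S f (fun i => (γ i : K)))}).ncard : ℝ) ≤ ε * (Nat.card (𝓞 K ⧸ I) : ℝ) ^ r) ∧
    (∀ (γ : Fin r → K) (v : HeightOneSpectrum (𝓞 K)), v ∈ S f γ → ∀ g : K[X], g.natDegree = f.natDegree →
      (∀ i, v.valuation K (g.coeff i - f.coeff i) < 1) → ∀ δ : Fin r → K,
      (∀ i, v.valuation K (δ i - γ i) < 1) → PositiveDensity (S g δ)) :=
  ⟨fun γ => Pool.Agent.P8H74.WP.tfae_main Pool.Agent.P8H96.WP.gfn f (by omega) γ,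
    fun ε hε => Pool.Agent.P8H74.WP.almost_all f hf r ε hε,
    fun γ v hv g hg hgf δ hδ => Pool.Agent.P8H74.WP.stable f (by omega) γ v hv.1 hv.2 g hg hgf δ hδ⟩

end Pool.Agent.Results.MP_63749c_nt.OnePrimeDecides
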