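import Pool.Agent.P8H74.WP.RatFin

/-!
# Nonperiodic points modulo primes for rational maps: one prime decides

Let `K` be a number field, `φ = f / g` a rational map of degree `d ≥ 2` of the projective line over `K`, and
`γ 0, ..., γ (r - 1)` any finite number of points of the projective line over `K` (`r = 2` in Q1 and Q2). Let `S` be the set of
the primes `v` of `K` of good reduction such that none of the `γ i` is periodic modulo `v`. If `S` contains ONE prime then it
has positive lower density. So Q1 and Q2 are equivalent for each datum, and a positive answer is decided by one prime.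

(`OnePrimeDecides` has this for polynomials and points of the affine line, and that almost all tuples have a positive
answer.)

Proof. Let `v ∈ S`, `n = N v + 1` and let `L` be the splitting field of the forms `φ^n(X, Y) = γ i`. A Frobenius automorphism
`Φ` at a prime over `v` fixes no root `β` of these equations on the projective line: otherwise the `N v + 2` points
`β, φ(β), ..., φ^n(β) = γ i` would be in `P^1` of the residue field of `v` modulo this prime, two of them would be congruent and
`γ i` would be periodic modulo `v`. By Chebotarev's theorem `Φ` is a Frobenius automorphism for a positive proportion of the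
primes `w`. If `γ i` is periodic modulo `w` then it has the form `φ^n(x)` modulo `w` with `x` in `P^1` of the residue field of
`w`; so some root `β` is congruent to `x` modulo a prime over `w`, `Φ β` is congruent to `β`, and `Φ β = β` for all but
finitely many `w`.

The packages: `Pool.Agent.P8H53.WP` (helper53), `Pool.Agent.P8H83.WP` (helper83).
-/

set_option autoImplicit false

open NumberField IsDedekindDomain Polynomial Filter

namespace Pool.Agent.Results.MP_63749c_nt.RationalMaps

section

variable {K : Type} [Field K] [NumberField K]

/-- The value of the homogenization of degree `d` of the polynomial `f` at the vector `(x, y)`: the sum of the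
`f_i x ^ i y ^ (d - i)`. -/
noncomputable def hom (d : ℕ) (f : K[X]) (x : K × K) : K :=
  ∑ i ∈ Finset.range (d + 1), f.coeff i * (x.1 ^ i * x.2 ^ (d - i))

/-- The rational map `f / g` of degree `d` of the projective line, in homogeneous coordinates. -/
noncomputable def rmap (d : ℕ) (f g : K[X]) (x : K × K) : K × K := (hom d f x, hom d g x)

/-- The rational map `f / g` of degree `d` has good reduction at the prime `v`: for some `c ≠ 0` the polynomials `c f`, `c g`
have `v`-integral coefficients and their resultant (for the degrees `d`, `d`) is a unit at `v`. -/
def Good (v : HeightOneSpectrum (𝓞 K)) (d : ℕ) (f g : K[X]) : Prop :=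
  ∃ c : K, c ≠ 0 ∧ (∀ i, v.valuation K ((C c * f).coeff i) ≤ 1) ∧ (∀ i, v.valuation K ((C c * g).coeff i) ≤ 1) ∧
    v.valuation K (resultant (C c * f) (C c * g) d d) = 1

/-- The points `x` and `y` of the projective line, given by nonzero vectors, have the same reduction modulo `v`:
`|x.1 y.2 - x.2 y.1| < max (|x.1|, |x.2|) max (|y.1|, |y.2|)` for the absolute value of `v`. -/
def SameReduction (v : HeightOneSpectrum (𝓞 K)) (x y : K × K) : Prop :=
  v.valuation K (x.1 * y.2 - x.2 * y.1) <
    max (v.valuation K x.1) (v.valuation K x.2) * max (v.valuation K y.1) (v.valuation K y.2)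

/-- The point `γ` of the projective line is periodic modulo `v` for the map `f / g` of degree `d`. -/
def PeriodicMod (v : HeightOneSpectrum (𝓞 K)) (d : ℕ) (f g : K[X]) (γ : K × K) : Prop :=
  ∃ m : ℕ, 0 < m ∧ SameReduction v ((rmap d f g)^[m] γ) γ

/-- The set `S` of the primes `v` of good reduction such that none of the points `γ i` is periodic modulo `v`. -/
def S {r : ℕ} (d : ℕ) (f g : K[X]) (γ : Fin r → K × K) : Set (HeightOneSpectrum (𝓞 K)) :=
  {v | Good v d f g ∧ ∀ i, ¬ PeriodicMod v d f g (γ i)}

/-- Positive lower density: the number of the elements of `T` of norm at most `X` is at least `c π(X)`, `c > 0`, for all large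
`X`. -/
def PositiveDensity (T : Set (HeightOneSpectrum (𝓞 K))) : Prop :=
  ∃ c : ℝ, 0 < c ∧ ∀ᶠ X : ℕ in atTop, c * (Nat.primeCounting X : ℝ) ≤
    Nat.card {v : HeightOneSpectrum (𝓞 K) // v ∈ T ∧ Ideal.absNorm v.asIdeal ≤ X}

end

/-- **One prime decides, for all rational maps.** Let `K` be a number field and `φ = f / g` a rational map of degree `d ≥ 2` over
`K` (`deg f ≤ d`, `deg g ≤ d`, the resultant of degrees `d`, `d` is not zero). For any finite number of points `γ i` of the
projective line over `K`: `S` is not empty iff `S` is infinite iff `S` has positive lower density. -/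
theorem result (K : Type) [Field K] [NumberField K] (d : ℕ) (hd : 2 ≤ d) (f g : K[X]) (hf : f.natDegree ≤ d)
    (hg : g.natDegree ≤ d) (_hres : resultant f g d d ≠ 0) (r : ℕ) (γ : Fin r → K × K) (hγ : ∀ i, γ i ≠ 0) :
    List.TFAE [(S d f g γ).Nonempty, (S d f g γ).Infinite, PositiveDensity (S d f g γ)] :=
  Pool.Agent.P8H74.WP.rtfae_main (by omega) f g hf hg γ hγ

end Pool.Agent.Results.MP_63749c_nt.RationalMaps
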