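import Pool.Agent.P8H74.WP.Uni
import Pool.Agent.P8H74.WP.Pw2
import Pool.Agent.P8H83.WP.Pw3

/-!
# Nonperiodic points modulo primes: EVERY two points, almost every map x^d + c

Let `K` be a number field, `d ≥ 2`, and let `α`, `β` be any two elements of `K`. Then for almost all algebraic integers `c` of
`K` Q1 and Q2 have a positive answer for the map `x ^ d + c` and the points `α`, `β`: the set of the primes modulo which neither `α`
nor `β` is periodic has positive lower density. Almost all: for every `ε > 0` the other `c` are in a proportion `ε` of the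
residue classes modulo some ideal `I ≠ 0` (so they have density zero in all boxes).

Known (problem file): `d = 2`, `K = ℚ`, `α = 0` and `β` any point, `c ∈ ℤ`, `c ≠ 0, -1`.

Proof. Let `v` be a prime with `q = N v ≡ 1 mod d`, `q > 5`, such that `α`, `β` are integral at `v`. For at least `(q - 5) / 4` residue
classes `c` modulo `v` neither `α - c` nor `β - c` is a `d`-th power modulo `v` (for `d ≥ 3` there are at most `(q + 2) / 3` `d`-th
powers; for `d = 2` count the solutions of `w ^ 2 - u ^ 2 = β - α`). Then `α`, `β` are not values of `x ^ d + c` modulo `v`, so they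
are not periodic modulo `v`, and by `OnePrimeDecides` one such prime gives positive density. Now the Chinese remainder
theorem.

The packages: `Pool.Agent.P8H83.WP` (helper83), `Pool.Agent.P8H96.WP` (helper96), `Pool.Agent.P8H78.WP` (helper78).
-/

set_option autoImplicit false

open NumberField IsDedekindDomain Polynomial Filter

namespace Pool.Agent.Results.MP_63749c_nt.UnicriticalMaps

section

variable {K : Type} [Field K] [NumberField K]

/-- The polynomial `f` has good reduction at the prime `v`: its coefficients are `v`-integral and the leading coefficient is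
a unit at `v`. -/
def Good (v : HeightOneSpectrum (𝓞 K)) (f : K[X]) : Prop :=
  (∀ i, v.valuation K (f.coeff i) ≤ 1) ∧ v.valuation K f.leadingCoeff = 1

/-- The point `γ` is periodic modulo `v` for the polynomial map `f`, which has good reduction at `v`: `γ` is not `v`-integral
(then its reduction is the fixed point `∞`) or `f^m(γ) ≡ γ` modulo `v` for some `m ≥ 1`. -/
def PeriodicMod (v : HeightOneSpectrum (𝓞 K)) (f : K[X]) (γ : K) : Prop :=
  1 < v.valuation K γ ∨ ∃ m : ℕ, 0 < m ∧ v.valuation K ((fun x => f.eval x)^[m] γ - γ) < 1

/-- The set `S` of the primes `v` of good reduction such that neither `α` nor `β` is periodic modulo `v`. -/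
def S (f : K[X]) (α β : K) : Set (HeightOneSpectrum (𝓞 K)) :=
  {v | Good v f ∧ ∀ i : Fin 2, ¬ PeriodicMod v f ((![α, β] : Fin 2 → K) i)}

/-- Positive lower density: the number of the elements of `T` of norm at most `X` is at least `c π(X)`, `c > 0`, for all large
`X`. -/
def PositiveDensity (T : Set (HeightOneSpectrum (𝓞 K))) : Prop :=
  ∃ c : ℝ, 0 < c ∧ ∀ᶠ X : ℕ in atTop, c * (Nat.primeCounting X : ℝ) ≤
    Nat.card {v : HeightOneSpectrum (𝓞 K) // v ∈ T ∧ Ideal.absNorm v.asIdeal ≤ X}

end

/-- **Every two points, almost every map `x ^ d + c`.** Let `K` be a number field, `d ≥ 2` and `α β ∈ K`. For every `ε > 0` there is an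
ideal `I ≠ 0` such that the algebraic integers `c` for which the set of the primes modulo which neither `α` nor `β` is
periodic for `x ^ d + c` does not have positive lower density are in at most `ε N I` of the `N I` residue classes modulo `I`. -/
theorem result (K : Type) [Field K] [NumberField K] (d : ℕ) (hd : 2 ≤ d) (α β : K) (ε : ℝ) (hε : 0 < ε) :
    ∃ I : Ideal (𝓞 K), I ≠ ⊥ ∧
      ((Ideal.Quotient.mk I '' {c : 𝓞 K | ¬ PositiveDensity (S (X ^ d + C (c : K)) α β)}).ncard : ℝ) ≤
        ε * (Nat.card (𝓞 K ⧸ I) : ℝ) :=
  Pool.Agent.P8H74.WP.uni (Pool.Agent.P8H74.WP.pw_of Pool.Agent.P8H83.WP.pw3 Pool.Agent.P8H74.WP.pw2) hd α β ε hε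

end Pool.Agent.Results.MP_63749c_nt.UnicriticalMaps
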